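import Pool.Agent.Lib.MP_0430e4_lc.M2.Defs

/-!
# Module BAS: first properties of the mass polynomials and of partners
-/

set_option autoImplicit false

namespace Pool.Agent.Lib.MP_0430e4_lc.M2

open Finset Polynomial

theorem gm_nonneg (w : ℕ) {n j k : ℕ} (e : Mat n j) (e' : Mat n k) (i : ℕ) :
    0 ≤ (gm w e e').coeff i := by
  unfold gm
  rw [All.mp_coeff]
  apply Finset.sum_nonneg
  intro y _
  split_ifs
  · exact sq_nonneg _
  · exact le_rfl

theorem Fm_coeff (n w j k i : ℕ) :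
    (Fm n w j k).coeff i = ∑ e : Mat n j, ∑ e' : Mat n k, (gm w e e').coeff i := by
  unfold Fm
  rw [finsetSum_coeff]
  apply Finset.sum_congr rfl
  intro e _
  rw [finsetSum_coeff]

theorem Fm_nonneg (n w j k i : ℕ) : 0 ≤ (Fm n w j k).coeff i := by
  rw [Fm_coeff]
  exact Finset.sum_nonneg fun e _ => Finset.sum_nonneg fun e' _ => gm_nonneg w e e' i

theorem pt_apply {n j : ℕ} (e : Mat n j) (t : Fin j) (b : Bool) :
    pt e (e (t, b)) = e (t, !b) := by
  unfold pt
  have h : ∃ s : Fin j × Bool, e s = e (t, b) := ⟨(t, b), rfl⟩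
  rw [dif_pos h]
  have h1 : Classical.choose h = (t, b) := e.injective (Classical.choose_spec h)
  rw [h1]

theorem pt_of_notMem {n j : ℕ} (e : Mat n j) {u : Fin n} (hu : u ∉ univ.map e) :
    pt e u = u := by
  unfold pt
  rw [dif_neg]
  rintro ⟨s, rfl⟩
  exact hu (Finset.mem_map_of_mem e (Finset.mem_univ s))

theorem pt_mem {n j : ℕ} (e : Mat n j) {u : Fin n} (hu : u ∈ univ.map e) :
    ∃ (t : Fin j) (b : Bool), u = e (t, b) ∧ pt e u = e (t, !b) := by
  rw [Finset.mem_map] at hu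
  obtain ⟨⟨t, b⟩, -, rfl⟩ := hu
  exact ⟨t, b, rfl, pt_apply e t b⟩

theorem pt_pt {n j : ℕ} (e : Mat n j) (u : Fin n) : pt e (pt e u) = u := by
  by_cases hu : u ∈ univ.map e
  · obtain ⟨t, b, h1, h2⟩ := pt_mem e hu
    rw [h2, pt_apply, Bool.not_not, h1]
  · rw [pt_of_notMem e hu, pt_of_notMem e hu]

theorem pt_ne {n j : ℕ} (e : Mat n j) {u : Fin n} (hu : u ∈ univ.map e) : pt e u ≠ u := by
  obtain ⟨t, b, h1, h2⟩ := pt_mem e hu
  rw [h2, h1]
  intro h3
  have h4 := e.injective h3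
  rw [Prod.mk.injEq] at h4
  cases b <;> simp at h4

end Pool.Agent.Lib.MP_0430e4_lc.M2
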