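import Pool.Agent.Lib.MP_0430e4_lc.M2.Defs

/-!
# Module BLK: the symmetric block `1 - q X^2 + X^4`
-/

set_option autoImplicit false

namespace Pool.Agent.Lib.MP_0430e4_lc.M2

open Finset Polynomial

theorem bk_natDegree (q : ℝ) : (bk q).natDegree ≤ 4 := by
  unfold bk
  compute_degree

theorem bk_pow_natDegree (q : ℝ) (M : ℕ) : (bk q ^ M).natDegree ≤ 4 * M := by
  have := natDegree_pow_le (p := bk q) (n := M)
  have h2 := bk_natDegree q
  nlinarith

theorem mac_bk (q : ℝ) : All.mac 4 (bk q)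
    = C (2 - q) + C (12 + 2 * q) * X ^ 2 + C (2 - q) * X ^ 4 := by
  have e : bk q = 1 + C (-q) * X ^ 2 + X ^ 4 := by
    unfold bk
    rw [C_neg]
    ring
  rw [e, All.mac_add, All.mac_add, All.mac_C_mul, All.mac_one, All.mac_X_pow (by norm_num),
    All.mac_X_pow le_rfl, C_neg, C_sub, C_add, C_mul]
  have e2 : (C (2 : ℝ) : ℝ[X]) = 2 := rfl
  have e12 : (C (12 : ℝ) : ℝ[X]) = 12 := rfl
  rw [e2, e12]
  ring

theorem mac_bk_coeff_nonneg {q : ℝ} (h1 : -6 ≤ q) (h2 : q ≤ 2) (j : ℕ) :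
    0 ≤ (All.mac 4 (bk q)).coeff j := by
  rw [mac_bk, coeff_add, coeff_add, coeff_C_mul, coeff_C_mul, coeff_C, coeff_X_pow, coeff_X_pow]
  have h3 : 0 ≤ 2 - q := by linarith
  have h4 : 0 ≤ 12 + 2 * q := by linarith
  apply add_nonneg
  · apply add_nonneg
    · split_ifs <;> linarith
    · apply mul_nonneg h4
      split_ifs <;> norm_num
  · apply mul_nonneg h3
    split_ifs <;> norm_num

theorem mac_bk_pow_nonneg {q : ℝ} (h1 : -6 ≤ q) (h2 : q ≤ 2) (M j : ℕ) :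
    0 ≤ (All.mac (4 * M) (bk q ^ M)).coeff j := by
  induction M generalizing j with
  | zero =>
    rw [pow_zero, All.mac_one, Nat.mul_zero, pow_zero, coeff_one]
    split_ifs <;> norm_num
  | succ m ih =>
    rw [pow_succ, Nat.mul_succ, All.mac_mul (bk_pow_natDegree q m) (bk_natDegree q)]
    exact All.coeff_mul_nonneg ih (mac_bk_coeff_nonneg h1 h2) j

theorem lop_bk_pow (q : ℝ) (M : ℕ) :
    All.lop (4 * M) 0 (bk q ^ M) = C (M * (4 - 2 * q)) * (X + X ^ 3) * bk q ^ (M - 1) := by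
  rcases M with _ | m
  · unfold All.lop
    simp
  · have hd : derivative (bk q) = - (2 * C q) * X + 4 * X ^ 3 := by
      unfold bk
      rw [derivative_add, derivative_sub, derivative_one, derivative_C_mul, derivative_X_pow,
        derivative_X_pow]
      have e2 : (C ((2 : ℕ) : ℝ) : ℝ[X]) = 2 := rfl
      have e4 : (C ((4 : ℕ) : ℝ) : ℝ[X]) = 4 := rfl
      rw [e2, e4]
      ring
    unfold All.lop
    rw [derivative_pow, hd, Nat.add_sub_cancel, C_0]
    have e1 : (C ((4 * (m + 1) : ℕ) : ℝ) : ℝ[X]) = 4 * C ((m + 1 : ℕ) : ℝ) := by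
      rw [Nat.cast_mul, C_mul]
      rfl
    have e2 : (C (((m + 1 : ℕ) : ℝ) * (4 - 2 * q)) : ℝ[X])
        = C ((m + 1 : ℕ) : ℝ) * (4 - 2 * C q) := by
      rw [C_mul, C_sub, C_mul]
      rfl
    rw [e1, e2]
    have e4 : bk q ^ (m + 1) = (1 - C q * X ^ 2 + X ^ 4) * bk q ^ m := by
      rw [pow_succ']
      rfl
    rw [e4]
    ring

theorem bk_pow_coeff_zero (q : ℝ) (M : ℕ) : (bk q ^ M).coeff 0 = 1 := by
  rw [coeff_zero_eq_eval_zero, eval_pow]
  unfold bk
  simp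

theorem bk_pow_eval_one (q : ℝ) (M : ℕ) : (bk q ^ M).eval 1 = (2 - q) ^ M := by
  rw [eval_pow]
  unfold bk
  simp only [eval_add, eval_sub, eval_one, eval_mul, eval_C, eval_pow, eval_X, one_pow, mul_one]
  congr 1
  ring

theorem bk_coeff (q : ℝ) (i : ℕ) : (bk q).coeff i
    = (if i = 0 then 1 else 0) - q * (if i = 2 then 1 else 0) + (if i = 4 then 1 else 0) := by
  unfold bk
  rw [coeff_add, coeff_sub, coeff_C_mul, coeff_X_pow, coeff_X_pow, coeff_one]

theorem bk_neg_nonneg_one {q : ℝ} (hq : 0 ≤ q) (i : ℕ) : 0 ≤ (bk (-q)).coeff i := by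
  rw [bk_coeff]
  split_ifs <;> linarith

theorem bk_neg_nonneg {q : ℝ} (hq : 0 ≤ q) (M i : ℕ) : 0 ≤ (bk (-q) ^ M).coeff i := by
  induction M generalizing i with
  | zero =>
    rw [pow_zero, coeff_one]
    split_ifs <;> norm_num
  | succ m ih =>
    rw [pow_succ]
    exact All.coeff_mul_nonneg ih (bk_neg_nonneg_one hq) i

theorem abs_coeff_mul_le {A A' B B' : ℝ[X]} (hA : ∀ i, |A.coeff i| ≤ A'.coeff i)
    (hB : ∀ i, |B.coeff i| ≤ B'.coeff i) (i : ℕ) : |(A * B).coeff i| ≤ (A' * B').coeff i := by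
  rw [coeff_mul, coeff_mul]
  refine (abs_sum_le_sum_abs _ _).trans (sum_le_sum fun x _ => ?_)
  rw [abs_mul]
  exact mul_le_mul (hA _) (hB _) (abs_nonneg _) ((abs_nonneg _).trans (hA _))

theorem bk_abs_pow {q : ℝ} (hq : 0 ≤ q) (M i : ℕ) :
    |(bk q ^ M).coeff i| ≤ (bk (-q) ^ M).coeff i := by
  induction M generalizing i with
  | zero =>
    rw [pow_zero, pow_zero, coeff_one]
    split_ifs <;> simp
  | succ m ih =>
    rw [pow_succ, pow_succ]
    apply abs_coeff_mul_le ih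
    intro k
    rw [bk_coeff, bk_coeff]
    split_ifs <;> first
      | omega
      | (norm_num; try (rw [abs_of_nonneg hq]))

theorem bk_abs {q : ℝ} (hq : 0 ≤ q) {P : ℝ[X]} (hP : ∀ i, 0 ≤ P.coeff i) (M i : ℕ) :
    |(P * bk q ^ M).coeff i| ≤ (P * bk (-q) ^ M).coeff i :=
  abs_coeff_mul_le (fun k => by rw [abs_of_nonneg (hP k)]) (bk_abs_pow hq M) i

end Pool.Agent.Lib.MP_0430e4_lc.M2
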