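import Pool.Agent.Lib.MP_0430e4_lc.All.CERT
import Pool.Agent.Lib.MP_0430e4_lc.All.MAC
import Pool.Agent.Lib.MP_0430e4_lc.All.LOP
import Pool.Agent.Lib.MP_0430e4_lc.All.MP
import Pool.Agent.Lib.MP_0430e4_lc.TensorAsym

/-!
# Improvement of the second MRRW bound for every `δ`: definitions

The slice certificate is a nonnegative combination, over pairs of ordered matchings, of the
squares of the Fourier transforms of `psi e * psi e'`. It is tensored with the symmetric block
with mass polynomial `1 - q X^2 + X^4` on `{0,1}^4`.
-/

set_option autoImplicit false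

namespace Pool.Agent.Lib.MP_0430e4_lc.M2

open Finset Polynomial

/-- The block `1 - q X^2 + X^4`. -/
noncomputable def bk (q : ℝ) : ℝ[X] := 1 - C q * X ^ 2 + X ^ 4

/-- Ordered matchings with `j` edges on `n` points, the edges are `{e (t, false), e (t, true)}`. -/
abbrev Mat (n j : ℕ) := (Fin j × Bool) ↪ Fin n

/-- The product of the differences over the edges of a matching, on the slice of weight `w`. -/
def psi {n j w : ℕ} (e : Mat n j) (z : Tensor.Slice (Fin n) w) : ℝ :=
  ∏ t : Fin j, (Tensor.ub (z.1 (e (t, false))) - Tensor.ub (z.1 (e (t, true))))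

/-- Fourier transform of `psi e * psi e'` on the slice of weight `w`. -/
def amp (w : ℕ) {n j k : ℕ} (e : Mat n j) (e' : Mat n k) (x : Fin n → Bool) : ℝ :=
  ∑ z : Tensor.Slice (Fin n) w, Tensor.chi z.1 x * (psi e z * psi e' z)

/-- Mass polynomial of the square of the amplitude. -/
noncomputable def gm (w : ℕ) {n j k : ℕ} (e : Mat n j) (e' : Mat n k) : ℝ[X] :=
  All.mp (fun x => amp w e e' x ^ 2)

/-- Sum over all pairs of ordered matchings with `j` and `k` edges. -/
noncomputable def Fm (n w j k : ℕ) : ℝ[X] := ∑ e : Mat n j, ∑ e' : Mat n k, gm w e e'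

/-- Common vertices of two matchings. -/
def cm {n j k : ℕ} (e : Mat n j) (e' : Mat n k) : Finset (Fin n) := univ.map e ∩ univ.map e'

/-- The partner of a vertex in a matching (the vertex itself if it is not covered). -/
noncomputable def pt {n j : ℕ} (e : Mat n j) (u : Fin n) : Fin n :=
  open Classical in
  if h : ∃ s : Fin j × Bool, e s = u then e ((Classical.choose h).1, !(Classical.choose h).2) else u

/-- The part of coefficient `i` of `Fm` coming from the pairs with exactly `c` common vertices. -/
noncomputable def Sc (n w j k i c : ℕ) : ℝ :=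
  ∑ e : Mat n j, ∑ e' : Mat n k, if (cm e e').card = c then (gm w e e').coeff i else 0

end Pool.Agent.Lib.MP_0430e4_lc.M2
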