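import Pool.Agent.Lib.MP_0430e4_lc.M2.Defs

/-!
# Module POLYA
-/

set_option autoImplicit false

namespace Pool.Agent.Lib.MP_0430e4_lc.M2

open Finset Polynomial

theorem lin_coeff (a b : ℝ) (N k : ℕ) :
    ((C a + C b * X) ^ N : ℝ[X]).coeff k = a ^ (N - k) * b ^ k * ((N.choose k : ℕ) : ℝ) := by
  rw [add_comm, add_pow, finsetSum_coeff]
  have h : ∀ m ∈ range (N + 1), ((C b * X) ^ m * C a ^ (N - m) * ((N.choose m : ℕ) : ℝ[X])).coeff k
      = if k = m then a ^ (N - m) * b ^ m * ((N.choose m : ℕ) : ℝ) else 0 := by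
    intro m _
    have e : ((C b * X) ^ m * C a ^ (N - m) * ((N.choose m : ℕ) : ℝ[X]))
        = C (a ^ (N - m) * b ^ m * ((N.choose m : ℕ) : ℝ)) * X ^ m := by
      rw [mul_pow, C_mul, C_mul, C_pow, C_pow, C_eq_natCast]
      ring
    rw [e, coeff_C_mul, coeff_X_pow]
    split_ifs <;> ring
  rw [sum_congr rfl h, sum_ite_eq]
  split_ifs with h2
  · rfl
  · rw [mem_range] at h2
    rw [Nat.choose_eq_zero_of_lt (by omega)]
    simp

theorem lin_step (a b : ℝ) {N m : ℕ} (hm : m ≤ N) :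
    ((m : ℝ) + 1) * a * (a ^ (N - (m + 1)) * b ^ (m + 1) * ((N.choose (m + 1) : ℕ) : ℝ))
      = ((N : ℝ) - m) * b * (a ^ (N - m) * b ^ m * ((N.choose m : ℕ) : ℝ)) := by
  have h := Nat.choose_succ_right_eq N m
  have h' : ((N.choose (m + 1) * (m + 1) : ℕ) : ℝ) = ((N.choose m * (N - m) : ℕ) : ℝ) := by
    rw [h]
  push_cast [Nat.cast_sub hm] at h'
  rcases eq_or_lt_of_le hm with h2 | h2
  · subst h2
    rw [Nat.choose_eq_zero_of_lt (by omega)]
    simp
  · have e : a ^ (N - m) = a * a ^ (N - (m + 1)) := by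
      rw [← pow_succ']
      congr 1
      omega
    rw [e]
    calc ((m : ℝ) + 1) * a * (a ^ (N - (m + 1)) * b ^ (m + 1) * ((N.choose (m + 1) : ℕ) : ℝ))
        = a * a ^ (N - (m + 1)) * b ^ (m + 1) * (((N.choose (m + 1) : ℕ) : ℝ) * ((m : ℝ) + 1)) := by
          ring
      _ = _ := by rw [h']; ring

/-- one quadratic factor -/
theorem polya_one {q : ℝ} (hq0 : 0 < q) (hq : q < 2) {N : ℕ} (hN : 12 ≤ (2 - q) * N) {a b : ℝ}
    (ha1 : 1 ≤ a) (ha3 : a ≤ 3) (hb1 : 1 ≤ b) (hb3 : b ≤ 3) (m : ℕ) :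
    0 ≤ ((C a + C b * X) ^ N * (1 - C q * X + X ^ 2) : ℝ[X]).coeff m := by
  set P : ℝ[X] := (C a + C b * X) ^ N with hP
  have hnn : ∀ k, 0 ≤ P.coeff k := by
    intro k
    rw [hP, lin_coeff]
    positivity
  have e : P * (1 - C q * X + X ^ 2) = P - C q * (P * X) + P * X * X := by ring
  rw [e, coeff_add, coeff_sub, coeff_C_mul]
  rcases m with _ | m
  · simp only [coeff_mul_X_zero, mul_zero, sub_zero, add_zero]
    exact hnn 0
  rw [coeff_mul_X, coeff_mul_X]
  -- coefficient at `m - 1`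
  rcases lt_or_ge N m with hm | hm
  · have h0 : P.coeff m = 0 := by
      rw [hP, lin_coeff, Nat.choose_eq_zero_of_lt hm]; simp
    have h1 : 0 ≤ (P * X).coeff m := by
      rcases m with _ | k
      · rw [coeff_mul_X_zero]
      · rw [coeff_mul_X]; exact hnn k
    rw [h0]
    have := hnn (m + 1)
    linarith
  -- main case, `m ≤ N`
  have ha0 : 0 < a := by linarith
  have hb0 : 0 < b := by linarith
  have hmR : (m : ℝ) ≤ N := by exact_mod_cast hm
  have hm0 : (0 : ℝ) ≤ m := Nat.cast_nonneg m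
  set x : ℝ := ((m : ℝ) + 1) * a with hx
  set y : ℝ := ((N : ℝ) - m + 1) * b with hy
  have hx0 : 0 < x := by positivity
  have hy0 : 0 < y := by
    apply mul_pos _ hb0
    linarith
  have s1 : x * P.coeff (m + 1) = (y - b) * P.coeff m := by
    have := lin_step a b hm
    rw [← lin_coeff, ← lin_coeff, ← hP] at this
    rw [hx, this, hy]
    ring
  have s2 : y * (P * X).coeff m = (x - a) * P.coeff m := by
    rcases m with _ | k
    · rw [coeff_mul_X_zero, hx]
      push_cast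
      ring
    · rw [coeff_mul_X]
      have := lin_step a b (N := N) (m := k) (by omega)
      rw [← lin_coeff, ← lin_coeff, ← hP] at this
      rw [hx, hy]
      push_cast
      have e3 : ((N : ℝ) - ((k : ℝ) + 1) + 1) * b = ((N : ℝ) - k) * b := by ring
      rw [e3, ← this]
      ring
  have hxy : (N : ℝ) + 2 ≤ x + y := by
    rw [hx, hy]
    nlinarith
  have key : 0 ≤ x ^ 2 + y ^ 2 - q * x * y - a * x - b * y := by
    have k1 : (2 - q) / 4 * (x + y) ^ 2 ≤ x ^ 2 + y ^ 2 - q * x * y := by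
      have : 0 ≤ (2 + q) / 4 * (x - y) ^ 2 := by positivity
      nlinarith
    have k2 : 3 * (x + y) ≤ (2 - q) / 4 * (x + y) ^ 2 := by
      have k3 : 12 ≤ (2 - q) * (x + y) := by nlinarith
      have : 0 ≤ x + y := by linarith
      nlinarith
    nlinarith
  have hfin : 0 ≤ x * y * (P.coeff (m + 1) - q * P.coeff m + (P * X).coeff m) := by
    have e4 : x * y * (P.coeff (m + 1) - q * P.coeff m + (P * X).coeff m)
        = y * (x * P.coeff (m + 1)) - q * x * y * P.coeff m + x * (y * (P * X).coeff m) := by ring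
    rw [e4, s1, s2]
    have := mul_nonneg key (hnn m)
    nlinarith
  exact nonneg_of_mul_nonneg_right hfin (by positivity)

theorem polya_many {q : ℝ} (hq0 : 0 < q) (hq : q < 2) {N1 : ℕ} (hN : 12 ≤ (2 - q) * N1)
    (M i j k : ℕ) (h : N1 * (M + 3) ≤ i + j + k) (m : ℕ) :
    0 ≤ ((1 + C 3 * X) ^ i * (C 3 + X) ^ j * (1 + X) ^ k * (1 - C q * X + X ^ 2) ^ M : ℝ[X]).coeff m := by
  have e1 : (1 + C 3 * X : ℝ[X]) = C 1 + C 3 * X := by rw [C_1]
  have e2 : (C 3 + X : ℝ[X]) = C 3 + C 1 * X := by rw [C_1, one_mul]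
  have e3 : (1 + X : ℝ[X]) = C 1 + C 1 * X := by rw [C_1, one_mul]
  rw [e1, e2, e3]
  have hl : ∀ (a b : ℝ), 0 ≤ a → 0 ≤ b → ∀ N k, 0 ≤ ((C a + C b * X) ^ N : ℝ[X]).coeff k := by
    intro a b ha hb N k
    rw [lin_coeff]
    positivity
  induction M generalizing i j k m with
  | zero =>
    rw [pow_zero, mul_one]
    exact All.coeff_mul_nonneg (All.coeff_mul_nonneg (hl 1 3 (by norm_num) (by norm_num) i)
      (hl 3 1 (by norm_num) (by norm_num) j)) (hl 1 1 (by norm_num) (by norm_num) k) m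
  | succ M ih =>
    have hN1 : 0 < N1 := by
      rcases Nat.eq_zero_or_pos N1 with h0 | h0
      · rw [h0] at hN
        norm_num at hN
      · exact h0
    have hcase : N1 ≤ i ∨ N1 ≤ j ∨ N1 ≤ k := by
      by_contra hcon
      push Not at hcon
      nlinarith
    rcases hcase with hc | hc | hc
    · obtain ⟨i', rfl⟩ := Nat.exists_eq_add_of_le hc
      have hr := ih i' j k (by nlinarith)
      have e : ((C 1 + C 3 * X) ^ (N1 + i') * (C 3 + C 1 * X) ^ j * (C 1 + C 1 * X) ^ k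
          * (1 - C q * X + X ^ 2) ^ (M + 1) : ℝ[X])
          = ((C 1 + C 3 * X) ^ N1 * (1 - C q * X + X ^ 2))
            * ((C 1 + C 3 * X) ^ i' * (C 3 + C 1 * X) ^ j * (C 1 + C 1 * X) ^ k
          * (1 - C q * X + X ^ 2) ^ M) := by
        rw [pow_add, pow_succ]; ring
      rw [e]
      exact All.coeff_mul_nonneg (polya_one hq0 hq hN (by norm_num) (by norm_num) (by norm_num)
        (by norm_num)) hr m
    · obtain ⟨j', rfl⟩ := Nat.exists_eq_add_of_le hc
      have hr := ih i j' k (by nlinarith)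
      have e : ((C 1 + C 3 * X) ^ i * (C 3 + C 1 * X) ^ (N1 + j') * (C 1 + C 1 * X) ^ k
          * (1 - C q * X + X ^ 2) ^ (M + 1) : ℝ[X])
          = ((C 3 + C 1 * X) ^ N1 * (1 - C q * X + X ^ 2))
            * ((C 1 + C 3 * X) ^ i * (C 3 + C 1 * X) ^ j' * (C 1 + C 1 * X) ^ k
          * (1 - C q * X + X ^ 2) ^ M) := by
        rw [pow_add, pow_succ]; ring
      rw [e]
      exact All.coeff_mul_nonneg (polya_one hq0 hq hN (by norm_num) (by norm_num) (by norm_num)
        (by norm_num)) hr m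
    · obtain ⟨k', rfl⟩ := Nat.exists_eq_add_of_le hc
      have hr := ih i j k' (by nlinarith)
      have e : ((C 1 + C 3 * X) ^ i * (C 3 + C 1 * X) ^ j * (C 1 + C 1 * X) ^ (N1 + k')
          * (1 - C q * X + X ^ 2) ^ (M + 1) : ℝ[X])
          = ((C 1 + C 1 * X) ^ N1 * (1 - C q * X + X ^ 2))
            * ((C 1 + C 3 * X) ^ i * (C 3 + C 1 * X) ^ j * (C 1 + C 1 * X) ^ k'
          * (1 - C q * X + X ^ 2) ^ M) := by
        rw [pow_add, pow_succ]; ring
      rw [e]
      exact All.coeff_mul_nonneg (polya_one hq0 hq hN (by norm_num) (by norm_num) (by norm_num)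
        (by norm_num)) hr m

theorem polya_sq {q : ℝ} (hq0 : 0 < q) (hq : q < 2) {N1 : ℕ} (hN : 12 ≤ (2 - q) * N1)
    (M i j k : ℕ) (h : N1 * (M + 3) ≤ i + j + k) (m : ℕ) :
    0 ≤ ((1 + C 3 * X ^ 2) ^ i * (C 3 + X ^ 2) ^ j * (1 + X ^ 2) ^ k * bk q ^ M : ℝ[X]).coeff m := by
  have e : ((1 + C 3 * X ^ 2) ^ i * (C 3 + X ^ 2) ^ j * (1 + X ^ 2) ^ k * bk q ^ M : ℝ[X])
      = expand ℝ 2 ((1 + C 3 * X) ^ i * (C 3 + X) ^ j * (1 + X) ^ k
        * (1 - C q * X + X ^ 2) ^ M) := by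
    simp only [map_mul, map_pow, map_add, map_sub, map_one, expand_C, expand_X]
    unfold bk
    rw [← pow_mul]
  rw [e, coeff_expand (by norm_num)]
  split_ifs
  · exact polya_many hq0 hq hN M i j k h _
  · exact le_rfl

end Pool.Agent.Lib.MP_0430e4_lc.M2
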