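import Pool.Agent.Lib.MP_0430e4_lc.M2.Defs

/-!
# The functions `psi e` of ordered matchings and the degree filtration of the slice
-/

set_option autoImplicit false

namespace Pool.Agent.Lib.MP_0430e4_lc.M2

open Finset

private theorem prod_mem_Q {n w j : ℕ} (e : Mat n j) (s : Finset (Fin j)) :
    (fun z : Tensor.Slice (Fin n) w =>
      ∏ t ∈ s, (Tensor.ub (z.1 (e (t, false))) - Tensor.ub (z.1 (e (t, true)))))
      ∈ Tensor.Q (Fin n) w (s.card + 1) := by
  induction s using Finset.induction_on with
  | empty =>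
    have : (fun z : Tensor.Slice (Fin n) w =>
        ∏ t ∈ (∅ : Finset (Fin j)),
          (Tensor.ub (z.1 (e (t, false))) - Tensor.ub (z.1 (e (t, true)))))
        = Tensor.mono ∅ := by
      funext z
      simp [Tensor.mono]
    rw [this]
    exact Tensor.mono_mem_Q (by simp)
  | insert t s ht ih =>
    rw [Finset.card_insert_of_notMem ht]
    have : (fun z : Tensor.Slice (Fin n) w =>
        ∏ t ∈ insert t s, (Tensor.ub (z.1 (e (t, false))) - Tensor.ub (z.1 (e (t, true)))))
        = (fun z => Tensor.ub (z.1 (e (t, false))) * (fun z : Tensor.Slice (Fin n) w =>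
            ∏ t ∈ s, (Tensor.ub (z.1 (e (t, false))) - Tensor.ub (z.1 (e (t, true))))) z)
          - (fun z => Tensor.ub (z.1 (e (t, true))) * (fun z : Tensor.Slice (Fin n) w =>
            ∏ t ∈ s, (Tensor.ub (z.1 (e (t, false))) - Tensor.ub (z.1 (e (t, true))))) z) := by
      funext z
      rw [Finset.prod_insert ht, Pi.sub_apply]
      ring
    rw [this]
    exact Submodule.sub_mem _ (Tensor.Q_ub _ ih) (Tensor.Q_ub _ ih)

theorem psi_mem_Q {n w j : ℕ} (e : Mat n j) :
    (psi e : Tensor.Slice (Fin n) w → ℝ) ∈ Tensor.Q (Fin n) w (j + 1) := by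
  have h := prod_mem_Q (w := w) e univ
  rw [Finset.card_univ, Fintype.card_fin] at h
  exact h

private theorem psi_swap {n w j : ℕ} (e : Mat n j) (t : Fin j) (z : Tensor.Slice (Fin n) w) :
    psi e (Tensor.act (Equiv.swap (e (t, false)) (e (t, true))) z) = - psi e z := by
  unfold psi
  rw [← Finset.mul_prod_erase univ _ (Finset.mem_univ t),
    ← Finset.mul_prod_erase univ (fun t => Tensor.ub (z.1 (e (t, false)))
      - Tensor.ub (z.1 (e (t, true)))) (Finset.mem_univ t)]
  have h1 : ∏ x ∈ univ.erase t,
      (Tensor.ub ((Tensor.act (Equiv.swap (e (t, false)) (e (t, true))) z).1 (e (x, false)))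
        - Tensor.ub ((Tensor.act (Equiv.swap (e (t, false)) (e (t, true))) z).1 (e (x, true))))
      = ∏ x ∈ univ.erase t, (Tensor.ub (z.1 (e (x, false))) - Tensor.ub (z.1 (e (x, true)))) := by
    refine Finset.prod_congr rfl fun x hx => ?_
    have hxt : x ≠ t := Finset.ne_of_mem_erase hx
    have hne : ∀ b b' : Bool, e (x, b) ≠ e (t, b') := by
      intro b b' h
      exact hxt (congrArg Prod.fst (e.injective h))
    rw [Tensor.act_apply, Tensor.act_apply,
      Equiv.swap_apply_of_ne_of_ne (hne _ _) (hne _ _),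
      Equiv.swap_apply_of_ne_of_ne (hne _ _) (hne _ _)]
  rw [h1, Tensor.act_apply, Tensor.act_apply, Equiv.swap_apply_left, Equiv.swap_apply_right]
  ring

theorem psi_orth_Q {n w j : ℕ} (e : Mat n j) {f : Tensor.Slice (Fin n) w → ℝ}
    (hf : f ∈ Tensor.Q (Fin n) w j) : ∑ z, psi e z * f z = 0 := by
  unfold Tensor.Q at hf
  induction hf using Submodule.span_induction with
  | mem f hf =>
    obtain ⟨T, hT, rfl⟩ := hf
    obtain ⟨t, ht1, ht2⟩ : ∃ t : Fin j, e (t, false) ∉ T ∧ e (t, true) ∉ T := by
      by_contra hcon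
      push Not at hcon
      have hex : ∀ t : Fin j, ∃ b : Bool, e (t, b) ∈ T := by
        intro t
        by_cases h : e (t, false) ∈ T
        · exact ⟨false, h⟩
        · exact ⟨true, hcon t h⟩
      choose b hb using hex
      have hinj : Function.Injective (fun t : Fin j => e (t, b t)) := by
        intro t t' h
        exact congrArg Prod.fst (e.injective h)
      have := Finset.card_le_card_of_injOn (s := (univ : Finset (Fin j))) (t := T)
        (fun t => e (t, b t)) (fun t _ => hb t) (fun t _ t' _ h => hinj h)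
      rw [Finset.card_univ, Fintype.card_fin] at this
      omega
    have h1 := Tensor.sum_act (Equiv.swap (e (t, false)) (e (t, true)))
      (fun z : Tensor.Slice (Fin n) w => psi e z * Tensor.mono T z)
    have h2 : ∀ z : Tensor.Slice (Fin n) w,
        psi e (Tensor.act (Equiv.swap (e (t, false)) (e (t, true))) z)
          * Tensor.mono T (Tensor.act (Equiv.swap (e (t, false)) (e (t, true))) z)
        = - (psi e z * Tensor.mono T z) := by
      intro z
      rw [psi_swap, Tensor.mono_swap_out ht1 ht2]
      ring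
    simp only [h2] at h1
    rw [Finset.sum_neg_distrib] at h1
    linarith
  | zero => simp
  | add f g _ _ hf hg =>
    simp only [Pi.add_apply, mul_add, Finset.sum_add_distrib]
    rw [hf, hg, add_zero]
  | smul c f _ hf =>
    simp only [Pi.smul_apply, smul_eq_mul]
    have : ∀ z : Tensor.Slice (Fin n) w, psi e z * (c * f z) = c * (psi e z * f z) := by
      intro z
      ring
    simp only [this]
    rw [← Finset.mul_sum, hf, mul_zero]

theorem co_psi {n w j : ℕ} (B : Tensor.EB (Fin n) w) (hw : 2 * w ≤ n) (hj : j ≤ w) (e : Mat n j)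
    (k : Tensor.Slice (Fin n) w) (hk : B.lam k ≠ Tensor.th n j) : B.co k (psi e) = 0 := by
  obtain ⟨m, hm, hm2, hm3⟩ := B.lam_eq_th k
  rw [Fintype.card_fin] at hm2
  have hne : m ≠ j := by
    rintro rfl
    exact hk hm2
  rw [B.co_def]
  rcases lt_or_gt_of_ne hne with h | h
  · have h1 := psi_orth_Q e (Tensor.Q_le (show m + 1 ≤ j from h) hm3)
    rw [← h1]
    refine Finset.sum_congr rfl fun z _ => ?_
    ring
  · have h2 : ∀ z, Tensor.Lop (B.v k) z = Tensor.th (Fintype.card (Fin n)) m * B.v k z := by
      intro z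
      rw [B.eig, hm2, Fintype.card_fin]
    exact Tensor.orth_Q (by rw [Fintype.card_fin]; omega) h2 (j + 1) (by omega) _ (psi_mem_Q e)

end Pool.Agent.Lib.MP_0430e4_lc.M2
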