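import Pool.Agent.Lib.MP_0430e4_lc.M2.Defs

/-!
# Expansion of a slice certificate over pairs of ordered matchings
-/

set_option autoImplicit false

namespace Pool.Agent.Lib.MP_0430e4_lc.M2

open Finset Polynomial

theorem str1_sum_swap {α β γ δ : Type*} (s : Finset α) (t : Finset β) (u : Finset γ)
    (v : Finset δ) (f : α → β → γ → δ → ℝ) :
    ∑ a ∈ s, ∑ b ∈ t, ∑ c ∈ u, ∑ d ∈ v, f a b c d
      = ∑ c ∈ u, ∑ d ∈ v, ∑ a ∈ s, ∑ b ∈ t, f a b c d := by
  calc ∑ a ∈ s, ∑ b ∈ t, ∑ c ∈ u, ∑ d ∈ v, f a b c d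
      = ∑ a ∈ s, ∑ c ∈ u, ∑ b ∈ t, ∑ d ∈ v, f a b c d := by
        apply Finset.sum_congr rfl
        intro a _
        exact Finset.sum_comm
    _ = ∑ c ∈ u, ∑ a ∈ s, ∑ b ∈ t, ∑ d ∈ v, f a b c d := Finset.sum_comm
    _ = ∑ c ∈ u, ∑ a ∈ s, ∑ d ∈ v, ∑ b ∈ t, f a b c d := by
        apply Finset.sum_congr rfl
        intro c _
        apply Finset.sum_congr rfl
        intro a _
        exact Finset.sum_comm
    _ = ∑ c ∈ u, ∑ d ∈ v, ∑ a ∈ s, ∑ b ∈ t, f a b c d := by
        apply Finset.sum_congr rfl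
        intro c _
        exact Finset.sum_comm

theorem str1_mp_sum {n : ℕ} {κ : Type*} (s : Finset κ) (f : κ → (Fin n → Bool) → ℝ) :
    All.mp (fun y => ∑ i ∈ s, f i y) = ∑ i ∈ s, All.mp (f i) := by
  unfold All.mp
  rw [Finset.sum_comm]
  apply Finset.sum_congr rfl
  intro y _
  rw [map_sum, Finset.sum_mul]

theorem str1_mp_mul {n : ℕ} (a : ℝ) (f : (Fin n → Bool) → ℝ) :
    All.mp (fun y => a * f y) = C a * All.mp f := by
  unfold All.mp
  rw [Finset.mul_sum]
  apply Finset.sum_congr rfl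
  intro y _
  rw [C_mul, mul_assoc]

theorem str1_amp_sq (w : ℕ) {n j k : ℕ} (e : Mat n j) (e' : Mat n k) (y : Fin n → Bool) :
    amp w e e' y ^ 2 = ∑ z : Tensor.Slice (Fin n) w, ∑ z' : Tensor.Slice (Fin n) w,
      Tensor.chi z.1 y * Tensor.chi z'.1 y
        * ((psi e z * psi e z') * (psi e' z * psi e' z')) := by
  unfold amp
  rw [sq, Finset.sum_mul_sum]
  apply Finset.sum_congr rfl
  intro z _
  apply Finset.sum_congr rfl
  intro z' _
  ring

theorem str1_point {n w : ℕ} (c d : ℕ → ℝ)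
    {K L : Tensor.Slice (Fin n) w → Tensor.Slice (Fin n) w → ℝ}
    (hK : ∀ z z', K z z' = ∑ j ∈ range (w + 1), c j * ∑ e : Mat n j, psi e z * psi e z')
    (hL : ∀ z z', L z z' = ∑ j ∈ range (w + 1), d j * ∑ e : Mat n j, psi e z * psi e z')
    (y : Fin n → Bool) :
    ∑ z : Tensor.Slice (Fin n) w, ∑ z' : Tensor.Slice (Fin n) w,
        Tensor.chi z.1 y * Tensor.chi z'.1 y * (K z z' * L z z')
      = ∑ j ∈ range (w + 1), ∑ k ∈ range (w + 1),
          (c j * d k) * ∑ e : Mat n j, ∑ e' : Mat n k, amp w e e' y ^ 2 := by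
  have h1 : ∀ z z' : Tensor.Slice (Fin n) w,
      Tensor.chi z.1 y * Tensor.chi z'.1 y * (K z z' * L z z')
      = ∑ j ∈ range (w + 1), ∑ k ∈ range (w + 1), (c j * d k) *
          ∑ e : Mat n j, ∑ e' : Mat n k, Tensor.chi z.1 y * Tensor.chi z'.1 y
            * ((psi e z * psi e z') * (psi e' z * psi e' z')) := by
    intro z z'
    rw [hK, hL, Finset.sum_mul_sum, Finset.mul_sum]
    apply Finset.sum_congr rfl
    intro j _
    rw [Finset.mul_sum]
    apply Finset.sum_congr rfl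
    intro k _
    have h2 : ∑ e : Mat n j, ∑ e' : Mat n k, Tensor.chi z.1 y * Tensor.chi z'.1 y
            * ((psi e z * psi e z') * (psi e' z * psi e' z'))
        = Tensor.chi z.1 y * Tensor.chi z'.1 y * ((∑ e : Mat n j, psi e z * psi e z')
          * ∑ e' : Mat n k, psi e' z * psi e' z') := by
      rw [Finset.sum_mul_sum, Finset.mul_sum]
      apply Finset.sum_congr rfl
      intro e _
      rw [Finset.mul_sum]
    rw [h2]
    ring
  simp only [h1]
  rw [str1_sum_swap]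
  apply Finset.sum_congr rfl
  intro j _
  apply Finset.sum_congr rfl
  intro k _
  simp only [str1_amp_sq]
  simp only [← Finset.mul_sum]
  congr 1
  simp only [Finset.mul_sum]
  exact str1_sum_swap _ _ _ _ _

theorem mp_pair {n w : ℕ} (c d : ℕ → ℝ)
    {K L : Tensor.Slice (Fin n) w → Tensor.Slice (Fin n) w → ℝ}
    (hK : ∀ z z', K z z' = ∑ j ∈ range (w + 1), c j * ∑ e : Mat n j, psi e z * psi e z')
    (hL : ∀ z z', L z z' = ∑ j ∈ range (w + 1), d j * ∑ e : Mat n j, psi e z * psi e z') :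
    All.mp (fun y => ∑ z : Tensor.Slice (Fin n) w, ∑ z' : Tensor.Slice (Fin n) w,
        Tensor.chi z.1 y * Tensor.chi z'.1 y * (K z z' * L z z'))
      = ∑ j ∈ range (w + 1), ∑ k ∈ range (w + 1), C (c j * d k) * Fm n w j k := by
  simp only [str1_point c d hK hL]
  rw [str1_mp_sum]
  apply Finset.sum_congr rfl
  intro j _
  rw [str1_mp_sum]
  apply Finset.sum_congr rfl
  intro k _
  rw [str1_mp_mul]
  congr 1
  unfold Fm
  rw [str1_mp_sum]
  apply Finset.sum_congr rfl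
  intro e _
  rw [str1_mp_sum]
  rfl

end Pool.Agent.Lib.MP_0430e4_lc.M2
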