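import Pool.Agent.Lib.MP_0430e4_lc.M2.Defs

/-!
# Module SW1: the switching inequality
-/

set_option autoImplicit false

namespace Pool.Agent.Lib.MP_0430e4_lc.M2

open Finset Polynomial

theorem chi_act_swap {n w : ℕ} (c d : Fin n) (z : Tensor.Slice (Fin n) w) (x : Fin n → Bool) :
    Tensor.chi (Tensor.act (Equiv.swap c d) z).1 x
      = Tensor.chi z.1 (fun i => x (Equiv.swap c d i)) := by
  simp only [Tensor.chi_eq]
  rw [← Equiv.prod_comp (Equiv.swap c d)]
  apply Finset.prod_congr rfl
  intro i _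
  rw [Tensor.act_apply, Equiv.swap_apply_self]

theorem wt_comp_swap {n : ℕ} (c d : Fin n) (x : Fin n → Bool) :
    Impr.wt (fun i => x (Equiv.swap c d i)) = Impr.wt x := by
  unfold Impr.wt
  exact Finset.card_equiv (Equiv.swap c d) (by simp)

theorem psi_act_swap {n w j : ℕ} (e : Mat n j) (c d : Fin n) (hc : ∀ s, e s ≠ c)
    (hd : ∀ s, e s ≠ d) (z : Tensor.Slice (Fin n) w) :
    psi e (Tensor.act (Equiv.swap c d) z) = psi e z := by
  unfold psi
  apply Finset.prod_congr rfl
  intro t _
  rw [Tensor.act_apply, Tensor.act_apply, Equiv.swap_apply_of_ne_of_ne (hc _) (hd _),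
    Equiv.swap_apply_of_ne_of_ne (hc _) (hd _)]

theorem psi_switch {w n k : ℕ} (e' e'' : Mat n k) (t' : Fin k) (b : Fin n)
    (hb : b ≠ e' (t', false)) (hb' : b ≠ e' (t', true))
    (he : ∀ s, e'' s = if s = (t', false) then b else e' s) (z : Tensor.Slice (Fin n) w) :
    psi e' z = psi e'' z
      - psi e'' (Tensor.act (Equiv.swap (e' (t', false)) (e' (t', true))) z) := by
  have h1 : e'' (t', false) = b := by rw [he]; simp
  have h2 : e'' (t', true) = e' (t', true) := by rw [he]; simp
  have h3 : ∀ s, s ≠ t' → ∀ a, e'' (s, a) = e' (s, a) := by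
    intro s hs a
    rw [he, if_neg]
    intro h
    exact hs (congrArg Prod.fst h)
  unfold psi
  rw [← Finset.mul_prod_erase univ _ (Finset.mem_univ t'),
    ← Finset.mul_prod_erase univ (fun t : Fin k =>
      (Tensor.ub (z.1 (e'' (t, false))) - Tensor.ub (z.1 (e'' (t, true))))) (Finset.mem_univ t'),
    ← Finset.mul_prod_erase univ (fun t : Fin k =>
      (Tensor.ub ((Tensor.act (Equiv.swap (e' (t', false)) (e' (t', true))) z).1 (e'' (t, false)))
        - Tensor.ub ((Tensor.act (Equiv.swap (e' (t', false)) (e' (t', true))) z).1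
          (e'' (t, true))))) (Finset.mem_univ t')]
  have h4 : ∏ t ∈ univ.erase t', (Tensor.ub (z.1 (e'' (t, false)))
      - Tensor.ub (z.1 (e'' (t, true))))
      = ∏ t ∈ univ.erase t', (Tensor.ub (z.1 (e' (t, false))) - Tensor.ub (z.1 (e' (t, true)))) := by
    apply Finset.prod_congr rfl
    intro t ht
    rw [h3 t (Finset.ne_of_mem_erase ht), h3 t (Finset.ne_of_mem_erase ht)]
  have h5 : ∏ t ∈ univ.erase t', (Tensor.ub ((Tensor.act
      (Equiv.swap (e' (t', false)) (e' (t', true))) z).1 (e'' (t, false)))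
        - Tensor.ub ((Tensor.act (Equiv.swap (e' (t', false)) (e' (t', true))) z).1
          (e'' (t, true))))
      = ∏ t ∈ univ.erase t', (Tensor.ub (z.1 (e' (t, false))) - Tensor.ub (z.1 (e' (t, true)))) := by
    apply Finset.prod_congr rfl
    intro t ht
    have ht' := Finset.ne_of_mem_erase ht
    have h6 : ∀ a a', e' (t, a) ≠ e' (t', a') := by
      intro a a' h
      exact ht' (congrArg Prod.fst (e'.injective h))
    rw [h3 t ht', h3 t ht', Tensor.act_apply, Tensor.act_apply,
      Equiv.swap_apply_of_ne_of_ne (h6 _ _) (h6 _ _),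
      Equiv.swap_apply_of_ne_of_ne (h6 _ _) (h6 _ _)]
  rw [h4, h5, h1, h2, Tensor.act_apply, Tensor.act_apply, Equiv.swap_apply_of_ne_of_ne hb hb',
    Equiv.swap_apply_right]
  ring

theorem amp_switch {w n j k : ℕ} (e : Mat n j) (e' e'' : Mat n k) (t : Fin j) (t' : Fin k)
    (hc : ∀ s, e s ≠ e' (t', false)) (hd : ∀ s, e s ≠ e' (t', true))
    (he : ∀ s, e'' s = if s = (t', false) then e (t, true) else e' s) (x : Fin n → Bool) :
    amp w e e' x = amp w e e'' x
      - amp w e e'' (fun i => x (Equiv.swap (e' (t', false)) (e' (t', true)) i)) := by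
  unfold amp
  have h1 : ∑ z : Tensor.Slice (Fin n) w,
      Tensor.chi z.1 (fun i => x (Equiv.swap (e' (t', false)) (e' (t', true)) i))
        * (psi e z * psi e'' z)
      = ∑ z : Tensor.Slice (Fin n) w, Tensor.chi z.1 x * (psi e z
        * psi e'' (Tensor.act (Equiv.swap (e' (t', false)) (e' (t', true))) z)) := by
    rw [← Tensor.sum_act (Equiv.swap (e' (t', false)) (e' (t', true)))]
    apply Finset.sum_congr rfl
    intro z _
    rw [← chi_act_swap, Tensor.act_swap_swap, psi_act_swap e _ _ hc hd]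
  rw [h1, ← Finset.sum_sub_distrib]
  apply Finset.sum_congr rfl
  intro z _
  rw [psi_switch e' e'' t' (e (t, true)) (hc _) (hd _) he z]
  ring

theorem gm_switch {w n j k : ℕ} (e : Mat n j) (e' e'' : Mat n k) (t : Fin j) (t' : Fin k)
    (hc : ∀ s, e s ≠ e' (t', false)) (hd : ∀ s, e s ≠ e' (t', true))
    (he : ∀ s, e'' s = if s = (t', false) then e (t, true) else e' s) (i : ℕ) :
    (gm w e e').coeff i ≤ 4 * (gm w e e'').coeff i := by
  unfold gm
  rw [All.mp_coeff, All.mp_coeff]
  set s := Equiv.swap (e' (t', false)) (e' (t', true)) with hs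
  have hinv : ∀ x : Fin n → Bool, (fun i => (fun i => x (s i)) (s i)) = x := by
    intro x
    funext i
    simp [hs]
  let E : (Fin n → Bool) ≃ (Fin n → Bool) :=
    ⟨fun x i => x (s i), fun x i => x (s i), hinv, hinv⟩
  have h1 : ∑ y : Fin n → Bool, (if Impr.wt y = i then amp w e e'' (fun i => y (s i)) ^ 2 else 0)
      = ∑ y : Fin n → Bool, (if Impr.wt y = i then amp w e e'' y ^ 2 else 0) := by
    rw [← Equiv.sum_comp E]
    apply Finset.sum_congr rfl
    intro y _
    have h2 : Impr.wt (E y) = Impr.wt y := wt_comp_swap _ _ y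
    rw [h2]
    have h3 : (fun i => (E y) (s i)) = y := hinv y
    rw [h3]
  have h4 : ∑ y : Fin n → Bool, (if Impr.wt y = i then amp w e e' y ^ 2 else 0)
      ≤ ∑ y : Fin n → Bool, (2 * (if Impr.wt y = i then amp w e e'' y ^ 2 else 0)
        + 2 * (if Impr.wt y = i then amp w e e'' (fun i => y (s i)) ^ 2 else 0)) := by
    apply Finset.sum_le_sum
    intro y _
    rw [amp_switch e e' e'' t t' hc hd he y, ← hs]
    split_ifs
    · nlinarith [sq_nonneg (amp w e e'' y + amp w e e'' (fun i => y (s i)))]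
    · simp
  rw [Finset.sum_add_distrib, ← Finset.mul_sum, ← Finset.mul_sum, h1] at h4
  linarith

end Pool.Agent.Lib.MP_0430e4_lc.M2
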