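import Pool.Agent.Lib.MP_0430e4_lc.M2.BAS
import Pool.Agent.Lib.MP_0430e4_lc.M2.SW1

/-!
# Module SW2: double counting with the switching inequality
-/

set_option autoImplicit false

namespace Pool.Agent.Lib.MP_0430e4_lc.M2

open Finset Polynomial

theorem cm_comm {n j k : ℕ} (e : Mat n j) (e' : Mat n k) : cm e e' = cm e' e := by
  unfold cm
  exact Finset.inter_comm _ _

/-- the edges of `e` which do not meet `e'` -/
def freeE {n j k : ℕ} (e : Mat n j) (e' : Mat n k) : Finset (Fin j) :=
  univ.filter fun t => ∀ a, e (t, a) ∉ univ.map e'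

theorem card_cm_eq {n j k : ℕ} (e : Mat n j) (e' : Mat n k) :
    (univ.filter fun s => e s ∈ univ.map e').card = (cm e e').card := by
  have h : (univ.filter fun s => e s ∈ univ.map e').map e = cm e e' := by
    ext v
    unfold cm
    simp only [Finset.mem_map, Finset.mem_filter, Finset.mem_univ, true_and, Finset.mem_inter]
    constructor
    · rintro ⟨s, ⟨s', hs'⟩, rfl⟩
      exact ⟨⟨s, rfl⟩, ⟨s', hs'⟩⟩
    · rintro ⟨⟨s, rfl⟩, ⟨s', hs'⟩⟩
      exact ⟨s, ⟨s', hs'⟩, rfl⟩
  rw [← h, Finset.card_map]

theorem freeE_card {n j k : ℕ} (e : Mat n j) (e' : Mat n k) :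
    j - (cm e e').card ≤ (freeE e e').card := by
  have h1 : univ ⊆ freeE e e' ∪ (univ.filter fun s => e s ∈ univ.map e').image Prod.fst := by
    intro t _
    by_cases h : t ∈ freeE e e'
    · exact Finset.mem_union_left _ h
    · apply Finset.mem_union_right
      unfold freeE at h
      rw [Finset.mem_filter] at h
      push Not at h
      obtain ⟨a, ha⟩ := h (Finset.mem_univ t)
      rw [Finset.mem_image]
      exact ⟨(t, a), Finset.mem_filter.2 ⟨Finset.mem_univ _, ha⟩, rfl⟩
  have h2 := Finset.card_le_card h1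
  have h3 := Finset.card_union_le (freeE e e')
    ((univ.filter fun s => e s ∈ univ.map e').image Prod.fst)
  have h4 : ((univ.filter fun s => e s ∈ univ.map e').image Prod.fst).card
      ≤ (univ.filter fun s => e s ∈ univ.map e').card := Finset.card_image_le
  rw [card_cm_eq] at h4
  rw [Finset.card_univ, Fintype.card_fin] at h2
  omega

/-- `e'` with the vertex `(t', false)` moved to `b` -/
def swm {n k : ℕ} (e' : Mat n k) (t' : Fin k) (b : Fin n) : Mat n k :=
  Function.Embedding.setValue e' (t', false) b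

theorem swm_apply {n k : ℕ} (e' : Mat n k) (t' : Fin k) (b : Fin n) (hb : ∀ s, e' s ≠ b)
    (s : Fin k × Bool) : swm e' t' b s = if s = (t', false) then b else e' s := by
  unfold swm Function.Embedding.setValue
  change (if s = (t', false) then b else if e' s = b then e' (t', false) else e' s) = _
  rw [if_neg (hb s)]

theorem cm_swm {n j k : ℕ} (e : Mat n j) (e' : Mat n k) (t : Fin j) (t' : Fin k)
    (ht : t ∈ freeE e e') (ht' : t' ∈ freeE e' e) :
    (cm e (swm e' t' (e (t, true)))).card = (cm e e').card + 1 := by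
  unfold freeE at ht ht'
  rw [Finset.mem_filter] at ht ht'
  have hb : ∀ s, e' s ≠ e (t, true) := by
    intro s h
    exact ht.2 true (by rw [Finset.mem_map]; exact ⟨s, Finset.mem_univ _, h⟩)
  have hc : ∀ s, e s ≠ e' (t', false) := by
    intro s h
    exact ht'.2 false (by rw [Finset.mem_map]; exact ⟨s, Finset.mem_univ _, h⟩)
  have h1 : cm e (swm e' t' (e (t, true))) = insert (e (t, true)) (cm e e') := by
    ext v
    unfold cm
    simp only [Finset.mem_insert, Finset.mem_inter, Finset.mem_map, Finset.mem_univ, true_and]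
    constructor
    · rintro ⟨⟨s, rfl⟩, ⟨s', hs'⟩⟩
      rw [swm_apply e' t' _ hb] at hs'
      split_ifs at hs' with h
      · left
        exact hs'.symm
      · right
        exact ⟨⟨s, rfl⟩, ⟨s', hs'⟩⟩
    · rintro (rfl | ⟨⟨s, rfl⟩, ⟨s', hs'⟩⟩)
      · refine ⟨⟨_, rfl⟩, ⟨(t', false), ?_⟩⟩
        rw [swm_apply e' t' _ hb, if_pos rfl]
      · refine ⟨⟨s, rfl⟩, ⟨s', ?_⟩⟩
        rw [swm_apply e' t' _ hb, if_neg]
        · exact hs'
        · rintro rfl
          exact hc s hs'.symm
  rw [h1, Finset.card_insert_of_notMem]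
  unfold cm
  rw [Finset.mem_inter]
  rintro ⟨-, h⟩
  rw [Finset.mem_map] at h
  obtain ⟨s, -, hs⟩ := h
  exact hb s hs

/-- the contribution of a fixed first matching -/
theorem step_count_aux {n j : ℕ} (w k i c : ℕ) (e : Mat n j) :
    (((j - c) * (k - c) : ℕ) : ℝ) *
        (∑ e' : Mat n k, if (cm e e').card = c then (gm w e e').coeff i else 0)
      ≤ ((4 * (c + 1) * n : ℕ) : ℝ) *
        (∑ e' : Mat n k, if (cm e e').card = c + 1 then (gm w e e').coeff i else 0) := by
  classical
  -- the set of triples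
  set T : Finset (Mat n k × Fin j × Fin k) :=
    univ.filter fun p => (cm e p.1).card = c ∧ p.2.1 ∈ freeE e p.1 ∧ p.2.2 ∈ freeE p.1 e with hT
  set U : Finset (Mat n k × Fin k × Fin n) :=
    univ.filter fun p => (cm e p.1).card = c + 1 ∧ p.1 (p.2.1, false) ∈ univ.map e with hU
  set φ : Mat n k × Fin j × Fin k → Mat n k × Fin k × Fin n :=
    fun p => (swm p.1 p.2.2 (e (p.2.1, true)), p.2.2, p.1 (p.2.2, false)) with hφ
  have hfree : ∀ p ∈ T, ∀ s, p.1 s ≠ e (p.2.1, true) := by
    intro p hp s h
    rw [hT, Finset.mem_filter] at hp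
    have h1 := hp.2.2.1
    unfold freeE at h1
    rw [Finset.mem_filter] at h1
    exact h1.2 true (by rw [Finset.mem_map]; exact ⟨s, Finset.mem_univ _, h⟩)
  have hfree' : ∀ p ∈ T, ∀ a s, e s ≠ p.1 (p.2.2, a) := by
    intro p hp a s h
    rw [hT, Finset.mem_filter] at hp
    have h1 := hp.2.2.2
    unfold freeE at h1
    rw [Finset.mem_filter] at h1
    exact h1.2 a (by rw [Finset.mem_map]; exact ⟨s, Finset.mem_univ _, h⟩)
  have hmap : ∀ p ∈ T, φ p ∈ U := by
    intro p hp
    have hp0 := hp
    rw [hT, Finset.mem_filter] at hp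
    rw [hU, Finset.mem_filter]
    refine ⟨Finset.mem_univ _, ?_, ?_⟩
    · rw [hφ]
      dsimp only
      rw [cm_swm e p.1 p.2.1 p.2.2 hp.2.2.1 hp.2.2.2, hp.2.1]
    · rw [hφ]
      dsimp only
      rw [swm_apply _ _ _ (hfree p hp0), if_pos rfl, Finset.mem_map]
      exact ⟨_, Finset.mem_univ _, rfl⟩
  have hinj : ∀ p ∈ T, ∀ p' ∈ T, φ p = φ p' → p = p' := by
    rintro ⟨e1, t1, t1'⟩ hp ⟨e2, t2, t2'⟩ hp' h
    have hf1 := hfree _ hp
    have hf2 := hfree _ hp'
    rw [hφ] at h
    simp only [Prod.mk.injEq] at h hf1 hf2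
    obtain ⟨h1, h2, h3⟩ := h
    subst h2
    have h4 : ∀ s, swm e1 t1' (e (t1, true)) s = swm e2 t1' (e (t2, true)) s := by
      intro s
      rw [h1]
    have h5 : e1 = e2 := by
      apply Function.Embedding.ext
      intro s
      by_cases hs : s = (t1', false)
      · rw [hs]
        exact h3
      · have h6 := h4 s
        rw [swm_apply _ _ _ hf1, swm_apply _ _ _ hf2, if_neg hs, if_neg hs] at h6
        exact h6
    have h7 := h4 (t1', false)
    rw [swm_apply _ _ _ hf1, swm_apply _ _ _ hf2, if_pos rfl, if_pos rfl] at h7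
    have h8 := congrArg Prod.fst (e.injective h7)
    dsimp only at h8
    rw [h5, h8]
  -- lower bound for the sum over triples
  have hlow : (((j - c) * (k - c) : ℕ) : ℝ) *
        (∑ e' : Mat n k, if (cm e e').card = c then (gm w e e').coeff i else 0)
      ≤ ∑ p ∈ T, (gm w e p.1).coeff i := by
    rw [hT, Finset.sum_filter, Fintype.sum_prod_type, Finset.mul_sum]
    apply Finset.sum_le_sum
    intro e' _
    by_cases hc : (cm e e').card = c
    · rw [if_pos hc]
      have h1 : ∑ q : Fin j × Fin k, (if (cm e e').card = c ∧ q.1 ∈ freeE e e' ∧ q.2 ∈ freeE e' e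
          then (gm w e e').coeff i else 0)
          = ((freeE e e').card : ℝ) * ((freeE e' e).card : ℝ) * (gm w e e').coeff i := by
        rw [← Finset.sum_filter, Finset.sum_const]
        have h2 : (univ.filter fun q : Fin j × Fin k => (cm e e').card = c ∧ q.1 ∈ freeE e e' ∧
            q.2 ∈ freeE e' e) = freeE e e' ×ˢ freeE e' e := by
          ext q
          simp [Finset.mem_product, hc]
        rw [h2, Finset.card_product, nsmul_eq_mul]
        push_cast
        ring
      rw [h1, Nat.cast_mul]
      apply mul_le_mul_of_nonneg_right _ (gm_nonneg w e e' i)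
      have h3 := freeE_card e e'
      have h4 := freeE_card e' e
      rw [hc] at h3
      rw [cm_comm, hc] at h4
      have h5 : ((j - c : ℕ) : ℝ) ≤ ((freeE e e').card : ℝ) := by exact_mod_cast h3
      have h6 : ((k - c : ℕ) : ℝ) ≤ ((freeE e' e).card : ℝ) := by exact_mod_cast h4
      exact mul_le_mul h5 h6 (Nat.cast_nonneg _) (Nat.cast_nonneg _)
    · rw [if_neg hc, mul_zero]
      apply Finset.sum_nonneg
      intro q _
      rw [if_neg]
      intro h
      exact hc h.1
  -- switching
  have hsw : ∑ p ∈ T, (gm w e p.1).coeff i ≤ ∑ p ∈ T, 4 * (gm w e (φ p).1).coeff i := by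
    apply Finset.sum_le_sum
    intro p hp
    exact gm_switch e p.1 (φ p).1 p.2.1 p.2.2 (hfree' p hp false) (hfree' p hp true)
      (swm_apply _ _ _ (hfree p hp)) i
  -- injectivity
  have himg : ∑ p ∈ T, 4 * (gm w e (φ p).1).coeff i ≤ ∑ q ∈ U, 4 * (gm w e q.1).coeff i := by
    rw [← Finset.sum_image (f := fun q : Mat n k × Fin k × Fin n => 4 * (gm w e q.1).coeff i)
      (s := T) (g := φ) hinj]
    apply Finset.sum_le_sum_of_subset_of_nonneg
    · intro q hq
      rw [Finset.mem_image] at hq
      obtain ⟨p, hp, rfl⟩ := hq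
      exact hmap p hp
    · intro q _ _
      exact mul_nonneg (by norm_num) (gm_nonneg w e q.1 i)
  -- upper bound
  have hup : ∑ q ∈ U, 4 * (gm w e q.1).coeff i ≤ ((4 * (c + 1) * n : ℕ) : ℝ) *
        (∑ e' : Mat n k, if (cm e e').card = c + 1 then (gm w e e').coeff i else 0) := by
    rw [hU, Finset.sum_filter, Fintype.sum_prod_type, Finset.mul_sum]
    apply Finset.sum_le_sum
    intro e' _
    by_cases hc : (cm e e').card = c + 1
    · rw [if_pos hc]
      have h1 : ∑ q : Fin k × Fin n, (if (cm e e').card = c + 1 ∧ e' (q.1, false) ∈ univ.map e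
          then 4 * (gm w e e').coeff i else 0)
          = ((univ.filter fun t : Fin k => e' (t, false) ∈ univ.map e).card : ℝ) * n
            * (4 * (gm w e e').coeff i) := by
        rw [← Finset.sum_filter, Finset.sum_const]
        have h2 : (univ.filter fun q : Fin k × Fin n => (cm e e').card = c + 1 ∧
            e' (q.1, false) ∈ univ.map e)
            = (univ.filter fun t : Fin k => e' (t, false) ∈ univ.map e) ×ˢ univ := by
          ext q
          simp [Finset.mem_product, hc]
        rw [h2, Finset.card_product, nsmul_eq_mul, Finset.card_univ, Fintype.card_fin]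
        push_cast
        ring
      rw [h1]
      have h3 : (univ.filter fun t : Fin k => e' (t, false) ∈ univ.map e).card ≤ c + 1 := by
        rw [← hc, cm_comm, ← card_cm_eq]
        apply Finset.card_le_card_of_injOn (fun t => (t, false))
        · intro t ht
          rw [Finset.mem_coe, Finset.mem_filter] at ht
          rw [Finset.mem_coe, Finset.mem_filter]
          exact ⟨Finset.mem_univ _, ht.2⟩
        · intro t _ t' _ h
          exact congrArg Prod.fst h
      have h4 : ((univ.filter fun t : Fin k => e' (t, false) ∈ univ.map e).card : ℝ)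
          ≤ (c : ℝ) + 1 := by exact_mod_cast h3
      have h5 := gm_nonneg w e e' i
      have h6 : (0 : ℝ) ≤ n * (4 * (gm w e e').coeff i) := by positivity
      push_cast
      nlinarith
    · rw [if_neg hc, mul_zero]
      apply le_of_eq
      apply Finset.sum_eq_zero
      intro q _
      rw [if_neg]
      intro h
      exact hc h.1
  exact hlow.trans (hsw.trans (himg.trans hup))

theorem step_count (n w j k i c : ℕ) :
    (((j - c) * (k - c) : ℕ) : ℝ) * Sc n w j k i c
      ≤ ((4 * (c + 1) * n : ℕ) : ℝ) * Sc n w j k i (c + 1) := by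
  unfold Sc
  rw [Finset.mul_sum, Finset.mul_sum]
  apply Finset.sum_le_sum
  intro e _
  exact step_count_aux w k i c e

end Pool.Agent.Lib.MP_0430e4_lc.M2
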